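import Pool.Agent.Helper89.Vol4.Goals

/-!
# Project V47, packet ASD: the anti-self-dual part of a bivector
-/

set_option autoImplicit false

namespace Pool.Agent.Helper17.Vol4.PkASD

open Pool.Agent.Helper86.Poly Pool.Agent.Helper89.Vol4

lemma inn (x y : E 4) : inner ℝ x y = x 0 * y 0 + x 1 * y 1 + x 2 * y 2 + x 3 * y 3 := by
  rw [PiLp.inner_apply, Fin.sum_univ_four]
  simp only [RCLike.inner_apply, conj_trivial]
  ring

lemma dtf (u v w z : E 4) : dt u v w z =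
    (u 0 * v 1 - u 1 * v 0) * (w 2 * z 3 - w 3 * z 2)
    - (u 0 * v 2 - u 2 * v 0) * (w 1 * z 3 - w 3 * z 1)
    + (u 0 * v 3 - u 3 * v 0) * (w 1 * z 2 - w 2 * z 1)
    + (u 1 * v 2 - u 2 * v 1) * (w 0 * z 3 - w 3 * z 0)
    - (u 1 * v 3 - u 3 * v 1) * (w 0 * z 2 - w 2 * z 0)
    + (u 2 * v 3 - u 3 * v 2) * (w 0 * z 1 - w 1 * z 0) := by
  unfold dt
  simp [Matrix.det_succ_row_zero, Fin.sum_univ_succ, Fin.succAbove]
  ring

/-- the three coordinates of the anti-self-dual part -/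
def b1 (a b : E 4) : ℝ := (a 0 * b 1 - a 1 * b 0) - (a 2 * b 3 - a 3 * b 2)

def b2 (a b : E 4) : ℝ := (a 0 * b 2 - a 2 * b 0) + (a 1 * b 3 - a 3 * b 1)

def b3 (a b : E 4) : ℝ := (a 0 * b 3 - a 3 * b 0) - (a 1 * b 2 - a 2 * b 1)

lemma key (a b c d : E 4) : inner ℝ a c * inner ℝ b d - inner ℝ a d * inner ℝ b c - dt a b c d =
    b1 a b * b1 c d + b2 a b * b2 c d + b3 a b * b3 c d := by
  rw [inn, inn, inn, inn, dtf]
  unfold b1 b2 b3
  ring

lemma sq (n : ℕ) (w f : Fin n → ℝ) :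
    ∑ p, ∑ q, w p * w q * (f p * f q) = (∑ p, w p * f p) ^ 2 := by
  rw [pow_two, Finset.sum_mul_sum]
  refine Finset.sum_congr rfl fun p _ => Finset.sum_congr rfl fun q _ => ?_
  ring

theorem thm : Pool.Agent.Helper89.Vol4.G_ASD := by
  intro n a b w
  have h : ∑ p, ∑ q, w p * w q * (inner ℝ (a p) (a q) * inner ℝ (b p) (b q) -
      inner ℝ (a p) (b q) * inner ℝ (b p) (a q) - dt (a p) (b p) (a q) (b q)) =
      (∑ p, w p * b1 (a p) (b p)) ^ 2 + (∑ p, w p * b2 (a p) (b p)) ^ 2 +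
        (∑ p, w p * b3 (a p) (b p)) ^ 2 := by
    rw [← sq, ← sq, ← sq, ← Finset.sum_add_distrib, ← Finset.sum_add_distrib]
    refine Finset.sum_congr rfl fun p _ => ?_
    rw [← Finset.sum_add_distrib, ← Finset.sum_add_distrib]
    refine Finset.sum_congr rfl fun q _ => ?_
    rw [key]
    ring
  rw [h]
  positivity

end Pool.Agent.Helper17.Vol4.PkASD
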